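import Pool.Agent.H295R2.T8
import Pool.Agent.H295R2.T1loc

/-!
# Local Farey discrepancies and the Mertens function: criteria

Everything is deduced from `Pool.Agent.H295R2` (starting library). `RH_of` is copied from
`Pool.Agent.H353R3.S6`.
-/

set_option autoImplicit false

open Filter Topology

namespace Pool.Agent.H118R4.LF

open Pool.Agent.H295R2

theorem RH_of (h : ∀ s : ℂ, 1 / 2 < s.re → s ≠ 1 → riemannZeta s ≠ 0) : RiemannHypothesis := by
  intro s hs htriv h1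
  by_contra hne
  rcases lt_or_gt_of_ne hne with hlt | hgt
  · by_cases h0 : s.re < 0
    · -- trivial zeros
      have h2 : ∀ n : ℕ, (1 - s) ≠ -n := by
        intro n hn
        have := congrArg Complex.re hn
        simp at this
        have : (0:ℝ) ≤ n := Nat.cast_nonneg n
        linarith
      have h3 : (1 - s) ≠ 1 := by
        intro h3
        have := congrArg Complex.re h3
        simp at this
        linarith
      have key := riemannZeta_one_sub h2 h3
      rw [sub_sub_cancel, hs] at key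
      have hz : riemannZeta (1 - s) ≠ 0 := riemannZeta_ne_zero_of_one_lt_re (by simp; linarith)
      have hG : Complex.Gamma (1 - s) ≠ 0 := Complex.Gamma_ne_zero h2
      have hp : (2 * (Real.pi : ℂ)) ^ (-(1 - s)) ≠ 0 := by
        rw [Complex.cpow_ne_zero_iff]
        left
        have := Real.pi_ne_zero
        simpa using this
      have hc : Complex.cos (Real.pi * (1 - s) / 2) = 0 := by
        by_contra hc
        exact (mul_ne_zero (mul_ne_zero (mul_ne_zero (mul_ne_zero two_ne_zero hp) hG) hc) hz) key.symm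
      rw [Complex.cos_eq_zero_iff] at hc
      obtain ⟨k, hk⟩ := hc
      have hpi : (Real.pi : ℂ) ≠ 0 := by exact_mod_cast Real.pi_ne_zero
      have hs2 : s = -2 * (k : ℂ) := by
        field_simp at hk
        linear_combination (-1 : ℂ) * hk
      have hkpos : 0 < k := by
        have := congrArg Complex.re hs2
        simp at this
        have h5 : (0:ℝ) < k := by linarith
        exact_mod_cast h5
      apply htriv
      refine ⟨(k - 1).toNat, ?_⟩
      have h6 : (((k - 1).toNat : ℕ) : ℂ) = (k : ℂ) - 1 := by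
        have : (((k - 1).toNat : ℤ)) = k - 1 := Int.toNat_of_nonneg (by omega)
        have h7 : (((k - 1).toNat : ℤ) : ℂ) = ((k - 1 : ℤ) : ℂ) := by rw [this]
        push_cast at h7
        exact_mod_cast h7
      rw [h6, hs2]
      ring
    · have h2 : ∀ n : ℕ, s ≠ -n := by
        intro n hn
        rcases Nat.eq_zero_or_pos n with h5 | h5
        · rw [hn, h5] at hs
          simp [riemannZeta_zero] at hs
        · have := congrArg Complex.re hn
          simp at this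
          have h6 : (1:ℝ) ≤ n := by exact_mod_cast h5
          linarith
      have key := riemannZeta_one_sub h2 h1
      rw [hs, mul_zero] at key
      refine h (1 - s) (by simp; linarith) ?_ key
      intro h3
      have : s = 0 := by linear_combination -h3
      rw [this] at hs
      simp [riemannZeta_zero] at hs
  · exact h s hgt h1 hs


theorem Theta_le_iff (θ : ℝ) : zetaSup ≤ θ ↔ ∀ s : ℂ, riemannZeta s = 0 → 0 < s.re → s.re < 1 → s.re ≤ θ := by
  constructor
  · intro h s h1 h2 h3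
    exact (le_csSup zset_bdd ⟨s, ⟨h1, h2, h3⟩, rfl⟩).trans h
  · intro h
    apply csSup_le zset_nonempty
    rintro x ⟨s, ⟨h1, h2, h3⟩, rfl⟩
    exact h s h1 h2 h3

theorem RH_iff : RiemannHypothesis ↔ zetaSup ≤ 1 / 2 := by
  rw [Theta_le_iff]
  constructor
  · intro h s h1 h2 h3
    refine (h s h1 ?_ ?_).le
    · rintro ⟨n, hn⟩
      have h5 := congrArg Complex.re hn
      simp at h5
      have : (0 : ℝ) ≤ n := Nat.cast_nonneg n
      linarith
    · rintro rfl
      exact riemannZeta_one_ne_zero h1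
  · intro h
    apply RH_of
    intro s hs hs1 hz
    rcases lt_or_ge s.re 1 with h1 | h1
    · have := h s hz (by linarith) h1
      linarith
    · exact riemannZeta_ne_zero_of_one_le_re h1 hz

/-- exponents can be compared at one large point -/
theorem le_of_rpow_le {a b : ℝ} {n : ℕ} (hn : 2 ≤ n) (h : (n : ℝ) ^ a ≤ (n : ℝ) ^ b) : a ≤ b := by
  have hn2 : (1 : ℝ) < n := by exact_mod_cast (by omega : 1 < n)
  exact (Real.rpow_le_rpow_left_iff hn2).1 h

theorem mertens_iff {θ : ℝ} (hθ : 0 ≤ θ) :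
    (∀ ε : ℝ, 0 < ε → ∃ C : ℝ, ∀ x : ℝ, 1 ≤ x → |Mx x| ≤ C * x ^ (θ + ε)) ↔ zetaSup ≤ θ := by
  constructor
  · intro h
    by_contra hcon
    push Not at hcon
    set ε : ℝ := (zetaSup - θ) / 4 with hε
    have hε0 : 0 < ε := by rw [hε]; linarith
    obtain ⟨C, hC⟩ := h ε hε0
    have hC0 : 0 ≤ C := by
      have := (abs_nonneg _).trans (hC 1 le_rfl)
      simpa using this
    have hpos : 0 ≤ θ + ε := by linarith
    obtain ⟨n, ⟨h, h1, h2, h3⟩, h4, hn⟩ := ((mertens_local_lower (δ := 1) (ε := ε) one_pos le_rfl hε0).and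
      ((rpow_eventually_ge (a := 2 * ε) (by linarith) (C + 1)).and (eventually_ge_atTop 2))).exists
    have hn1 : (1 : ℝ) ≤ n := by exact_mod_cast (by omega : 1 ≤ n)
    have hn0 : (0 : ℝ) < n := by linarith
    have hh1 : (1 : ℝ) ≤ h := by exact_mod_cast h1
    rw [Real.rpow_one] at h2
    have h5 : 1 ≤ (n : ℝ) / h := by rw [one_le_div (by linarith)]; exact h2
    have h6 := hC _ h5
    have h7 : ((n : ℝ) / h) ^ (θ + ε) ≤ (n : ℝ) ^ (θ + ε) := by
      apply Real.rpow_le_rpow (by positivity) (div_le_self hn0.le hh1) hpos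
    have h8 : (n : ℝ) ^ (zetaSup - ε) ≤ C * (n : ℝ) ^ (θ + ε) :=
      h3.trans (h6.trans (mul_le_mul_of_nonneg_left h7 hC0))
    have h9 : (n : ℝ) ^ (zetaSup - ε) = (n : ℝ) ^ (2 * ε) * (n : ℝ) ^ (θ + ε) := by
      rw [← Real.rpow_add hn0]; congr 1; rw [hε]; ring
    rw [h9] at h8
    have h10 := le_of_mul_le_mul_right h8 (by positivity)
    linarith
  · intro h ε hε
    obtain ⟨σ, -, h2, -, -, C, hC0, hC⟩ := mertens_sup hε
    refine ⟨C, fun x hx => (hC x hx).trans ?_⟩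
    apply mul_le_mul_of_nonneg_left _ hC0.le
    exact Real.rpow_le_rpow_of_exponent_le hx (by linarith)

theorem interval_iff (θ : ℝ) {α β : ℝ} (hαβ : α < β) (hα : α < 1) (hβ : 0 < β) :
    (∀ ε : ℝ, 0 < ε → ∃ᶠ n : ℕ in atTop, localSum α β n ≤ (n : ℝ) ^ (θ + ε)) ↔ zetaSup ≤ θ := by
  constructor
  · intro h
    by_contra hcon
    push Not at hcon
    set ε : ℝ := (zetaSup - θ) / 4 with hε
    have hε0 : 0 < ε := by rw [hε]; linarith
    obtain ⟨n, h1, h2, hn⟩ := ((h ε hε0).and_eventually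
      ((interval_lower hαβ hα hβ hε0).and (eventually_ge_atTop 2))).exists
    have h3 := le_of_rpow_le hn (h2.trans h1)
    linarith
  · intro h ε hε
    apply Eventually.frequently
    set e : ℝ := min (ε / 2) 1 with he
    have he0 : 0 < e := lt_min (by linarith) one_pos
    have he1 : e ≤ ε / 2 := min_le_left _ _
    obtain ⟨K, hK0, hK⟩ := total_upper he0 (min_le_right _ _)
    filter_upwards [rpow_eventually_ge (a := ε / 2) (by linarith) K, eventually_ge_atTop 1] with n h1 hn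
    have hn1 : (1 : ℝ) ≤ n := by exact_mod_cast hn
    have hn0 : (0 : ℝ) < n := by linarith
    calc localSum α β n ≤ totalSum n := localSum_le_total _ _ _
      _ ≤ K * (n : ℝ) ^ (zetaSup + e) := hK n hn
      _ ≤ (n : ℝ) ^ (ε / 2) * (n : ℝ) ^ (zetaSup + e) := by gcongr
      _ = (n : ℝ) ^ (ε / 2 + (zetaSup + e)) := by rw [← Real.rpow_add hn0]
      _ ≤ (n : ℝ) ^ (θ + ε) := Real.rpow_le_rpow_of_exponent_le hn1 (by linarith)

theorem window_le {p q : ℕ} (hpq : p < q) (hco : Nat.Coprime p q) {c : ℝ} (hc : 0 ≤ c) (hc1 : c < 1)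
    {r : ℝ} (h : ∃ᶠ n : ℕ in atTop, localSum (p / q) (p / q + (n : ℝ) ^ (-c)) n ≤ (n : ℝ) ^ r) :
    (1 - c) * zetaSup ≤ r := by
  by_contra hcon
  push Not at hcon
  set ε : ℝ := ((1 - c) * zetaSup - r) / 2 with hε
  have hε0 : 0 < ε := by rw [hε]; linarith
  obtain ⟨n, h1, h2, hn⟩ := (h.and_eventually
    ((window_lower hpq hco hc hc1 hε0).and (eventually_ge_atTop 2))).exists
  have h3 := le_of_rpow_le hn (h2.trans h1)
  linarith

theorem localSum_le_filter (a b : ℝ) (n : ℕ) : localSum a b n ≤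
    ∑ j ∈ Finset.univ.filter (fun j : Fin (farey n).card => a ≤ fareyNth n j ∧ fareyNth n j ≤ b),
      disp n j := by
  unfold localSum
  rw [Finset.sum_filter]
  refine Finset.sum_le_sum fun j _ => ?_
  by_cases h : a < fareyNth n j ∧ fareyNth n j < b
  · rw [if_pos h, if_pos ⟨h.1.le, h.2.le⟩]
  · rw [if_neg h]
    split_ifs
    exacts [disp_nonneg n j, le_rfl]

theorem RH_window_iff {p q : ℕ} (hpq : p < q) (hco : Nat.Coprime p q) {c : ℝ} (hc : 0 ≤ c) (hc1 : c < 1) :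
    RiemannHypothesis ↔ ∀ ε : ℝ, 0 < ε →
      ∃ᶠ n : ℕ in atTop, localSum (p / q) (p / q + (n : ℝ) ^ (-c)) n ≤ (n : ℝ) ^ ((1 - c) / 2 + ε) := by
  rw [RH_iff]
  constructor
  · intro h ε hε
    apply Eventually.frequently
    obtain ⟨C, hC⟩ := (mertens_iff (θ := 1 / 2) (by norm_num)).2 h (ε / 2) (by linarith)
    have hC' : ∀ y : ℝ, 1 ≤ y → |Mx y| ≤ (|C| + 1) * y ^ (1 / 2 + ε / 2) := by
      intro y hy
      refine (hC y hy).trans ?_
      have := le_abs_self C
      gcongr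
      linarith
    obtain ⟨K, hK0, hK⟩ := T1loc (σ := 1 / 2 + ε / 2) (by linarith) (by positivity) hC'
    filter_upwards [rpow_eventually_ge (a := ε / 2) (by linarith) (2 * K), eventually_ge_atTop 1] with n h1 hn
    have hn1 : (1 : ℝ) ≤ n := by exact_mod_cast hn
    have hn0 : (0 : ℝ) < n := by linarith
    have hw0 : 0 ≤ (n : ℝ) ^ (-c) := by positivity
    have h2 := hK n hn (p / q) (p / q + (n : ℝ) ^ (-c)) (by linarith)
    have e1 : ((p : ℝ) / q + (n : ℝ) ^ (-c)) - p / q = (n : ℝ) ^ (-c) := by ring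
    rw [e1] at h2
    have e2 : Real.sqrt ((n : ℝ) ^ (-c)) = (n : ℝ) ^ (-c / 2) := by
      rw [Real.sqrt_eq_rpow, ← Real.rpow_mul hn0.le]
      congr 1; ring
    rw [e2, ← Real.rpow_add hn0] at h2
    have h3 : (n : ℝ) ^ (1 / 2 + ε / 2 - 1) ≤ (n : ℝ) ^ (-c / 2 + (1 / 2 + ε / 2)) :=
      Real.rpow_le_rpow_of_exponent_le hn1 (by linarith)
    calc localSum (p / q) (p / q + (n : ℝ) ^ (-c)) n
        ≤ _ := localSum_le_filter _ _ _
      _ ≤ _ := h2
      _ ≤ K * ((n : ℝ) ^ (-c / 2 + (1 / 2 + ε / 2)) + (n : ℝ) ^ (-c / 2 + (1 / 2 + ε / 2))) := by gcongr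
      _ = (2 * K) * (n : ℝ) ^ (-c / 2 + (1 / 2 + ε / 2)) := by ring
      _ ≤ (n : ℝ) ^ (ε / 2) * (n : ℝ) ^ (-c / 2 + (1 / 2 + ε / 2)) := by gcongr
      _ = (n : ℝ) ^ ((1 - c) / 2 + ε) := by
          rw [← Real.rpow_add hn0]; congr 1; ring
  · intro h
    by_contra hcon
    push Not at hcon
    have h1 : 0 < (1 - c) * (zetaSup - 1 / 2) := mul_pos (by linarith) (by linarith)
    have h2 := window_le hpq hco hc hc1 (h ((1 - c) * (zetaSup - 1 / 2) / 2) (by linarith))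
    nlinarith

/-- a power saving for the Mertens function -/
def PowerSaving : Prop := ∃ ε C : ℝ, ε < 1 / 2 ∧ ∀ x : ℝ, 1 ≤ x → |Mx x| ≤ C * x ^ (1 / 2 + ε)

theorem powerSaving_iff : PowerSaving ↔ zetaSup < 1 := by
  constructor
  · rintro ⟨ε, C, hε, hC⟩
    obtain ⟨θ, hθ⟩ : ∃ θ : ℝ, θ = max (1 / 2 + ε) 0 := ⟨_, rfl⟩
    have h0 : 0 ≤ θ := hθ ▸ le_max_right _ _
    have h1 : 1 / 2 + ε ≤ θ := hθ ▸ le_max_left _ _
    have h2 : θ < 1 := by rw [hθ]; exact max_lt (by linarith) one_pos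
    have hC0 : 0 ≤ C := by
      have := (abs_nonneg _).trans (hC 1 le_rfl)
      simpa using this
    refine lt_of_le_of_lt ((mertens_iff h0).1 fun e he => ⟨C, fun x hx => (hC x hx).trans ?_⟩) h2
    exact mul_le_mul_of_nonneg_left (Real.rpow_le_rpow_of_exponent_le hx (by linarith)) hC0
  · intro h
    have h12 := half_le_zetaSup
    obtain ⟨C, hC⟩ := (mertens_iff (θ := zetaSup) (by linarith)).2 le_rfl ((1 - zetaSup) / 2)
      (by linarith)
    refine ⟨zetaSup + (1 - zetaSup) / 2 - 1 / 2, C, by linarith, fun x hx => ?_⟩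
    have e : 1 / 2 + (zetaSup + (1 - zetaSup) / 2 - 1 / 2) = zetaSup + (1 - zetaSup) / 2 := by ring
    rw [e]
    exact hC x hx

theorem final :
    (∀ α β : ℝ, α < β → α < 1 → 0 < β →
      Tendsto (fun n : ℕ => Real.log (localSum α β n) / Real.log n) atTop (𝓝 zetaSup)) ∧
    (∀ p q : ℕ, p < q → Nat.Coprime p q → ∀ c : ℝ, 0 ≤ c → c < 1 → ∀ ε : ℝ, 0 < ε →
      ∀ᶠ n : ℕ in atTop,
        (n : ℝ) ^ ((1 - c) * zetaSup - ε) ≤ localSum (p / q) (p / q + (n : ℝ) ^ (-c)) n) ∧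
    (∀ θ : ℝ, 0 ≤ θ → ∀ α β : ℝ, α < β → α < 1 → 0 < β →
      ((∀ ε : ℝ, 0 < ε → ∃ C : ℝ, ∀ x : ℝ, 1 ≤ x → |Mx x| ≤ C * x ^ (θ + ε)) ↔
        ∀ ε : ℝ, 0 < ε → ∃ᶠ n : ℕ in atTop, localSum α β n ≤ (n : ℝ) ^ (θ + ε))) ∧
    (∀ θ : ℝ, 0 ≤ θ → ∀ p q : ℕ, p < q → Nat.Coprime p q → ∀ c : ℝ, 0 ≤ c → c < 1 →
      (∀ ε : ℝ, 0 < ε → ∃ᶠ n : ℕ in atTop,
        localSum (p / q) (p / q + (n : ℝ) ^ (-c)) n ≤ (n : ℝ) ^ ((1 - c) * θ + ε)) →
      ∀ ε : ℝ, 0 < ε → ∃ C : ℝ, ∀ x : ℝ, 1 ≤ x → |Mx x| ≤ C * x ^ (θ + ε)) ∧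
    (∀ α β : ℝ, α < β → α < 1 → 0 < β →
      (PowerSaving ↔ ∃ θ : ℝ, θ < 1 ∧ ∃ᶠ n : ℕ in atTop, localSum α β n ≤ (n : ℝ) ^ θ)) ∧
    (∀ p q : ℕ, p < q → Nat.Coprime p q → ∀ c r : ℝ, 0 ≤ c → c < 1 → r < 1 - c →
      (∃ᶠ n : ℕ in atTop, localSum (p / q) (p / q + (n : ℝ) ^ (-c)) n ≤ (n : ℝ) ^ r) →
      PowerSaving) ∧
    (∀ p q : ℕ, p < q → Nat.Coprime p q → ∀ c : ℝ, 0 ≤ c → c < 1 →
      (RiemannHypothesis ↔ ∀ ε : ℝ, 0 < ε → ∃ᶠ n : ℕ in atTop,
        localSum (p / q) (p / q + (n : ℝ) ^ (-c)) n ≤ (n : ℝ) ^ ((1 - c) / 2 + ε))) := by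
  refine ⟨fun α β h1 h2 h3 => limit_theorem h1 h2 h3,
    fun p q h1 h2 c h3 h4 ε h5 => window_lower h1 h2 h3 h4 h5,
    fun θ h0 α β h1 h2 h3 => (mertens_iff h0).trans (interval_iff θ h1 h2 h3).symm,
    fun θ h0 p q h1 h2 c h3 h4 h => (mertens_iff h0).2 ?_, fun α β h1 h2 h3 => ?_,
    fun p q h1 h2 c r h3 hc1 h4 h => ?_,
    fun p q h1 h2 c h3 h4 => RH_window_iff h1 h2 h3 h4⟩
  · by_contra hcon
    push Not at hcon
    have h5 : 0 < (1 - c) * (zetaSup - θ) := mul_pos (by linarith) (by linarith)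
    have h6 := window_le h1 h2 h3 h4 (h ((1 - c) * (zetaSup - θ) / 2) (by linarith))
    nlinarith
  · rw [powerSaving_iff]
    constructor
    · intro h
      refine ⟨zetaSup + (1 - zetaSup) / 2, by linarith, ?_⟩
      exact (interval_iff zetaSup h1 h2 h3).2 le_rfl _ (by linarith)
    · rintro ⟨θ, hθ, h⟩
      have h12 := half_le_zetaSup
      refine lt_of_le_of_lt ?_ hθ
      by_contra hcon
      push Not at hcon
      obtain ⟨n, h4, h5, hn⟩ := (h.and_eventually
        ((interval_lower h1 h2 h3 (ε := (zetaSup - θ) / 2) (by linarith)).and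
          (eventually_ge_atTop 2))).exists
      have h6 := le_of_rpow_le hn (h5.trans h4)
      linarith
  · rw [powerSaving_iff]
    have h5 := window_le h1 h2 h3 hc1 h
    by_contra hcon
    push Not at hcon
    nlinarith

end Pool.Agent.H118R4.LF
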